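import Pool.Agent.Helper18.NF.StN

/-! Module N9 of project NF: the von Mangoldt function of a number field. -/

set_option autoImplicit false

open Finset Filter Topology NumberField Module
open Pool.TP (idc)
open scoped nonZeroDivisors ArithmeticFunction.vonMangoldt Classical

namespace Pool.Agent.Helper21.NF

open Pool.Agent.Helper18.NF Pool.Agent.Helper18.BV

namespace VonM

variable {K : Type} [Field K] [NumberField K]

/-- the von Mangoldt function on ideals -/
noncomputable def lam (J : Ideal (𝓞 K)) : ℝ :=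
  if h : IsPrimePow J then Real.log (Ideal.absNorm h.choose) else 0

theorem lam_pow {P : Ideal (𝓞 K)} (hP : Prime P) {j : ℕ} (hj : 0 < j) :
    lam (P ^ j) = Real.log (Ideal.absNorm P) := by
  have h : IsPrimePow (P ^ j) := ⟨P, j, hP, hj, rfl⟩
  rw [lam, dif_pos h]
  obtain ⟨k, hprime, hk, hpk⟩ := h.choose_spec
  rw [eq_of_prime_pow_eq hprime hP hk hpk]

theorem lam_nonneg (J : Ideal (𝓞 K)) : 0 ≤ lam J := by
  rw [lam]
  split_ifs with h
  · exact Real.log_natCast_nonneg _
  · exact le_rfl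

/-- the ideals of norm `m` -/
noncomputable def S (K : Type) [Field K] [NumberField K] (m : ℕ) : Finset (Ideal (𝓞 K)) :=
  (Ideal.finite_setOfPred_absNorm_eq (S := 𝓞 K) m).toFinset

theorem mem_S {m : ℕ} {I : Ideal (𝓞 K)} : I ∈ S K m ↔ Ideal.absNorm I = m := by
  simp [S]

theorem card_S (m : ℕ) : (S K m).card = idc K m := by
  have h := Nat.card_coe_set_eq {I : Ideal (𝓞 K) | Ideal.absNorm I = m}
  rw [Set.ncard_eq_toFinset_card _ (Ideal.finite_setOfPred_absNorm_eq (S := 𝓞 K) m)] at h
  exact h.symm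

theorem absNorm_ne {I : Ideal (𝓞 K)} (h : I ≠ 0) : Ideal.absNorm I ≠ 0 := by
  intro h0
  exact h (Ideal.absNorm_eq_zero_iff.1 h0)

/-- the sum of `lam` over divisors -/
theorem sum_dvd (T : Finset (Ideal (𝓞 K))) (M : Ideal (𝓞 K)) (hM : M ≠ 0)
    (hT : ∀ J, J ∣ M → J ∈ T) :
    ∑ J ∈ T with J ∣ M, lam J = Real.log (Ideal.absNorm M) := by
  induction M using UniqueFactorizationMonoid.induction_on_prime with
  | h₁ => exact absurd rfl hM
  | h₂ M hu =>
    rw [Ideal.isUnit_iff.1 hu, Ideal.absNorm_top, Nat.cast_one, Real.log_one]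
    refine Finset.sum_eq_zero fun J hJ => ?_
    rw [Finset.mem_filter, ← Ideal.one_eq_top] at hJ
    rw [lam, dif_neg]
    intro h
    exact h.not_isUnit (isUnit_of_dvd_one hJ.2)
  | h₃ a p ha hp ih =>
    have ih' := ih ha fun J hJ => hT J (hJ.mul_left p)
    obtain ⟨c, hac, hpc⟩ :=
      (FiniteMultiplicity.of_prime_left hp ha).exists_eq_pow_mul_and_not_dvd
    set v := multiplicity p a with hv
    have hp0 : p ≠ 0 := hp.ne_zero
    have hlog : Real.log (Ideal.absNorm (p * a)) =
        Real.log (Ideal.absNorm a) + Real.log (Ideal.absNorm p) := by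
      rw [map_mul, Nat.cast_mul, Real.log_mul, add_comm]
      · exact Nat.cast_ne_zero.2 (absNorm_ne hp0)
      · exact Nat.cast_ne_zero.2 (absNorm_ne ha)
    have hsplit : ∑ J ∈ T with J ∣ p * a, lam J =
        ∑ J ∈ T with J ∣ a, lam J + ∑ J ∈ T with (J ∣ p * a ∧ ¬ J ∣ a), lam J := by
      rw [← Finset.sum_union]
      · congr 1
        ext J
        simp only [Finset.mem_filter, Finset.mem_union]
        constructor
        · rintro ⟨h1, h2⟩
          by_cases h3 : J ∣ a
          · exact Or.inl ⟨h1, h3⟩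
          · exact Or.inr ⟨h1, h2, h3⟩
        · rintro (⟨h1, h2⟩ | ⟨h1, h2, h3⟩)
          · exact ⟨h1, h2.mul_left p⟩
          · exact ⟨h1, h2⟩
      · rw [Finset.disjoint_left]
        intro J h1 h2
        simp only [Finset.mem_filter] at h1 h2
        exact h2.2.2 h1.2
    have hpa : p * a = p ^ (v + 1) * c := by
      rw [pow_succ', mul_assoc, ← hac]
    have hnd : ¬ p ^ (v + 1) ∣ a := by
      intro h
      rw [hac, pow_succ] at h
      exact hpc ((mul_dvd_mul_iff_left (pow_ne_zero v hp0)).1 h)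
    have hone : ∑ J ∈ T with (J ∣ p * a ∧ ¬ J ∣ a), lam J = lam (p ^ (v + 1)) := by
      refine Finset.sum_eq_single_of_mem _ ?_ ?_
      · have h1 : p ^ (v + 1) ∣ p * a := by rw [hpa]; exact dvd_mul_right _ _
        simp only [Finset.mem_filter]
        exact ⟨hT _ h1, h1, hnd⟩
      · intro J hJ hne
        simp only [Finset.mem_filter] at hJ
        obtain ⟨-, hJ1, hJ2⟩ := hJ
        rw [lam, dif_neg]
        rintro ⟨q, j, hq, hj, rfl⟩
        by_cases hqp : q = p
        · subst hqp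
          rcases lt_trichotomy j (v + 1) with h | h | h
          · apply hJ2
            rw [hac]
            exact (pow_dvd_pow q (by omega)).mul_right c
          · exact hne (by rw [h])
          · have h2 : q ^ (v + 2) ∣ q ^ (v + 1) * c := by
              rw [← hpa]
              exact (pow_dvd_pow q (by omega)).trans hJ1
            rw [pow_succ q (v + 1)] at h2
            exact hpc ((mul_dvd_mul_iff_left (pow_ne_zero _ hp0)).1 h2)
        · have h2 : ¬ q ∣ p ^ (v + 1) := by
            intro h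
            have h3 := hq.dvd_of_dvd_pow h
            exact hqp (associated_iff_eq.1 (hq.associated_of_dvd hp h3))
          rw [hpa] at hJ1
          have h3 := hq.pow_dvd_of_dvd_mul_left j h2 hJ1
          apply hJ2
          rw [hac]
          exact h3.mul_left _
    rw [hsplit, hone, ih', lam_pow hp (Nat.succ_pos v), hlog]

/-- the von Mangoldt function of the number field -/
noncomputable def L (K : Type) [Field K] [NumberField K] : ArithmeticFunction ℝ :=
  ⟨fun m => ∑ J ∈ S K m, lam J, by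
    refine Finset.sum_eq_zero fun J hJ => ?_
    rw [mem_S, Ideal.absNorm_eq_zero_iff] at hJ
    rw [lam, dif_neg]
    rintro ⟨q, j, hq, hj, h⟩
    rw [hJ] at h
    exact hq.ne_zero (pow_eq_zero_iff hj.ne' |>.1 h)⟩

theorem L_apply (m : ℕ) : L K m = ∑ J ∈ S K m, lam J := rfl

theorem L_nonneg (m : ℕ) : 0 ≤ L K m := Finset.sum_nonneg fun J _ => lam_nonneg J

theorem rK_apply {m : ℕ} (hm : m ≠ 0) : rK K m = ((S K m).card : ℝ) := by
  rw [card_S]
  exact if_neg hm

theorem conv (m : ℕ) : (rK K * L K) m = rK K m * Real.log m := by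
  rcases Nat.eq_zero_or_pos m with h0 | hm
  · subst h0
    simp
  have hm0 : m ≠ 0 := hm.ne'
  have hfin := Ideal.finite_setOfPred_absNorm_le (S := 𝓞 K) m
  set T : Finset (Ideal (𝓞 K)) := hfin.toFinset with hT
  have hmT : ∀ J : Ideal (𝓞 K), J ∈ T ↔ Ideal.absNorm J ≤ m := fun J => by simp [hT]
  set U : Finset (Ideal (𝓞 K) × Ideal (𝓞 K)) :=
    {x ∈ T ×ˢ T | Ideal.absNorm x.1 * Ideal.absNorm x.2 = m} with hU
  have hmU : ∀ x : Ideal (𝓞 K) × Ideal (𝓞 K), x ∈ U ↔
      Ideal.absNorm x.1 * Ideal.absNorm x.2 = m := by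
    intro x
    simp only [hU, Finset.mem_filter, Finset.mem_product, hmT, and_iff_right_iff_imp]
    intro h
    have h1 : Ideal.absNorm x.1 ∣ m := ⟨_, h.symm⟩
    have h2 : Ideal.absNorm x.2 ∣ m := ⟨_, by rw [← h, mul_comm]⟩
    exact ⟨Nat.le_of_dvd hm h1, Nat.le_of_dvd hm h2⟩
  have hA : ∑ x ∈ U, lam x.2 = (rK K * L K) m := by
    rw [ArithmeticFunction.mul_apply]
    rw [← Finset.sum_fiberwise_of_maps_to (s := U) (t := m.divisorsAntidiagonal)
      (g := fun x => (Ideal.absNorm x.1, Ideal.absNorm x.2))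
      (fun x hx => by
        rw [Nat.mem_divisorsAntidiagonal]
        exact ⟨(hmU x).1 hx, hm0⟩)]
    refine Finset.sum_congr rfl fun y hy => ?_
    rw [Nat.mem_divisorsAntidiagonal] at hy
    have hy1 : y.1 ≠ 0 := fun h => by rw [h, zero_mul] at hy; exact hy.2 hy.1.symm
    have hset : {x ∈ U | (Ideal.absNorm x.1, Ideal.absNorm x.2) = y} = S K y.1 ×ˢ S K y.2 := by
      ext x
      simp only [Finset.mem_filter, Finset.mem_product, hmU, mem_S, Prod.ext_iff]
      constructor
      · rintro ⟨-, h⟩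
        exact h
      · rintro ⟨h1, h2⟩
        exact ⟨by rw [h1, h2]; exact hy.1, h1, h2⟩
    rw [hset, Finset.sum_product, rK_apply hy1, L_apply]
    simp
  have hB : ∑ x ∈ U, lam x.2 = rK K m * Real.log m := by
    rw [← Finset.sum_fiberwise_of_maps_to (s := U) (t := S K m)
      (g := fun x => x.1 * x.2)
      (fun x hx => by
        rw [mem_S, map_mul]
        exact (hmU x).1 hx)]
    have hM : ∀ M ∈ S K m, ∑ x ∈ U with x.1 * x.2 = M, lam x.2 = Real.log m := by
      intro M hM
      rw [mem_S] at hM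
      have hM0 : M ≠ 0 := by
        intro h
        rw [h, Ideal.zero_eq_bot, Ideal.absNorm_bot] at hM
        exact hm0 hM.symm
      have hd : ∀ J : Ideal (𝓞 K), J ∣ M → J ∈ T := by
        intro J hJ
        rw [hmT]
        refine Nat.le_of_dvd hm ?_
        rw [← hM]
        exact map_dvd Ideal.absNorm hJ
      rw [← hM, ← sum_dvd T M hM0 hd]
      refine Finset.sum_bij (fun x _ => x.2) ?_ ?_ ?_ ?_
      · intro x hx
        simp only [Finset.mem_filter] at hx ⊢
        have h1 : x.2 ∣ M := ⟨x.1, by rw [← hx.2, mul_comm]⟩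
        exact ⟨hd _ h1, h1⟩
      · intro x hx y hy hxy
        simp only [Finset.mem_filter] at hx hy
        refine Prod.ext ?_ hxy
        have h1 : x.2 ≠ 0 := by
          intro h
          rw [h, mul_zero] at hx
          exact hM0 hx.2.symm
        have h2 : x.1 * x.2 = y.1 * x.2 := by rw [hx.2, ← hy.2, hxy]
        exact mul_right_cancel₀ h1 h2
      · intro J hJ
        simp only [Finset.mem_filter] at hJ
        obtain ⟨I, hI⟩ := hJ.2
        refine ⟨(I, J), ?_, rfl⟩
        simp only [Finset.mem_filter, hmU]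
        refine ⟨?_, by rw [hI, mul_comm]⟩
        rw [← map_mul, mul_comm, ← hI, hM]
      · intro x _
        rfl
    rw [Finset.sum_congr rfl hM, Finset.sum_const, rK_apply hm0, nsmul_eq_mul]
  rw [← hA, hB]

theorem L_le (m : ℕ) : L K m ≤ finrank ℚ K * Λ m := by
  rcases Nat.eq_zero_or_pos m with h0 | hm
  · subst h0
    simp
  have hm0 : m ≠ 0 := hm.ne'
  rw [L_apply]
  -- restrict to prime powers
  have hfil : ∑ J ∈ S K m, lam J = ∑ J ∈ S K m with IsPrimePow J, lam J := by
    rw [Finset.sum_filter]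
    refine Finset.sum_congr rfl fun J _ => ?_
    split_ifs with h
    · rfl
    · rw [lam, dif_neg h]
  rw [hfil]
  by_cases hne : ∃ J ∈ S K m, IsPrimePow J
  swap
  · rw [Finset.sum_eq_zero]
    · exact mul_nonneg (Nat.cast_nonneg _) ArithmeticFunction.vonMangoldt_nonneg
    · intro J hJ
      rw [Finset.mem_filter] at hJ
      exact absurd ⟨J, hJ.1, hJ.2⟩ hne
  -- every prime ideal with a power of norm `m` contains `p = m.minFac`, and `m` is a power of `p`
  set p : ℕ := m.minFac with hp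
  have key : ∀ (P : Ideal (𝓞 K)) (j : ℕ), Prime P → 0 < j → Ideal.absNorm (P ^ j) = m →
      (p : 𝓞 K) ∈ P ∧ p.Prime ∧ ∃ k, 0 < k ∧ m = p ^ k := by
    intro P j hP hj hPm
    have hPp := Ideal.isPrime_of_prime hP
    have hN1 : Ideal.absNorm P ≠ 1 := by
      intro h
      rw [Ideal.absNorm_eq_one_iff] at h
      exact hP.not_isUnit (Ideal.isUnit_iff.2 h)
    have hN0 : Ideal.absNorm P ≠ 0 := absNorm_ne hP.ne_zero
    have hmem : ((Ideal.absNorm P : ℕ) : 𝓞 K) ∈ P := Ideal.absNorm_mem P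
    -- a rational prime in `P`
    obtain ⟨l, hl, hlP⟩ : ∃ l : ℕ, l.Prime ∧ (l : 𝓞 K) ∈ P := by
      have h1 : ∀ s : Multiset ℕ, (∀ l ∈ s, l.Prime) → ((s.prod : ℕ) : 𝓞 K) ∈ P →
          ∃ l ∈ s, (l : 𝓞 K) ∈ P := by
        intro s
        induction s using Multiset.induction_on with
        | empty =>
          intro _ h
          rw [Multiset.prod_zero, Nat.cast_one] at h
          exact absurd ((Ideal.eq_top_iff_one P).2 h) hPp.ne_top
        | cons a s ih =>
          intro hs h
          rw [Multiset.prod_cons, Nat.cast_mul] at h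
          rcases hPp.mem_or_mem h with h | h
          · exact ⟨a, Multiset.mem_cons_self a s, h⟩
          · obtain ⟨l, hl, hlP⟩ := ih (fun l hl => hs l (Multiset.mem_cons_of_mem hl)) h
            exact ⟨l, Multiset.mem_cons_of_mem hl, hlP⟩
      obtain ⟨l, hl, hlP⟩ := h1 (Ideal.absNorm P).primeFactorsList
        (fun l hl => Nat.prime_of_mem_primeFactorsList (by simpa using hl))
        (by rw [Multiset.prod_coe, Nat.prod_primeFactorsList hN0]; exact hmem)
      exact ⟨l, Nat.prime_of_mem_primeFactorsList (by simpa using hl), hlP⟩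
    have hdvd : Ideal.absNorm P ∣ l ^ finrank ℚ K := by
      have h1 : P ∣ Ideal.span {((l : ℕ) : 𝓞 K)} := by
        rw [Ideal.dvd_iff_le, Ideal.span_singleton_le_iff_mem]
        exact hlP
      have h2 := map_dvd Ideal.absNorm h1
      rwa [Ideal.absNorm_span_natCast, RingOfIntegers.rank] at h2
    obtain ⟨f, _, hf⟩ := (Nat.dvd_prime_pow hl).1 hdvd
    have hf0 : f ≠ 0 := by
      intro h
      rw [h, pow_zero] at hf
      exact hN1 hf
    have hmk : m = l ^ (f * j) := by
      rw [← hPm, map_pow, hf, pow_mul]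
    have hfj : f * j ≠ 0 := Nat.mul_ne_zero hf0 hj.ne'
    have hpl : p = l := by
      rw [hp, hmk, Nat.Prime.pow_minFac hl hfj]
    rw [hpl]
    exact ⟨hlP, hl, f * j, Nat.pos_of_ne_zero hfj, hmk⟩
  obtain ⟨J0, hJ0, P0, j0, hP0, hj0, rfl⟩ := hne
  obtain ⟨-, hpp, k, hk, hmk⟩ := key P0 j0 hP0 hj0 (mem_S.1 hJ0)
  have hLam : Λ m = Real.log p := by
    rw [hmk, ArithmeticFunction.vonMangoldt_apply_pow hk.ne',
      ArithmeticFunction.vonMangoldt_apply_prime hpp]
  rw [hLam]
  -- the underlying prime ideals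
  let φ : Ideal (𝓞 K) → Ideal (𝓞 K) := fun J => if h : IsPrimePow J then h.choose else ⊤
  have hφ : ∀ J ∈ (S K m).filter IsPrimePow, Prime (φ J) ∧ (p : 𝓞 K) ∈ φ J ∧
      lam J = Real.log (Ideal.absNorm (φ J)) ∧ ∃ j, 0 < j ∧ J = φ J ^ j := by
    intro J hJ
    rw [Finset.mem_filter, mem_S] at hJ
    obtain ⟨j, h1, h2, h3⟩ := hJ.2.choose_spec
    have h4 : φ J = hJ.2.choose := dif_pos hJ.2
    refine ⟨by rw [h4]; exact h1, ?_, ?_, j, h2, ?_⟩
    · rw [h4]
      exact (key _ j h1 h2 (by rw [h3]; exact hJ.1)).1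
    · rw [h4, lam, dif_pos hJ.2]
    · rw [h4, h3]
  have hinj : Set.InjOn φ ((S K m).filter IsPrimePow : Finset (Ideal (𝓞 K))) := by
    intro J hJ J' hJ' h
    obtain ⟨h1, -, -, j, hj, h2⟩ := hφ J hJ
    obtain ⟨h1', -, -, j', hj', h2'⟩ := hφ J' hJ'
    have h3 : Ideal.absNorm J = m := (mem_S.1 (Finset.mem_filter.1 (Finset.mem_coe.1 hJ)).1)
    have h3' : Ideal.absNorm J' = m := (mem_S.1 (Finset.mem_filter.1 (Finset.mem_coe.1 hJ')).1)
    rw [h2, map_pow] at h3
    rw [h2', map_pow, ← h] at h3'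
    have hN2 : 2 ≤ Ideal.absNorm (φ J) := by
      have ha : Ideal.absNorm (φ J) ≠ 0 := absNorm_ne h1.ne_zero
      have hb : Ideal.absNorm (φ J) ≠ 1 := by
        intro h
        rw [Ideal.absNorm_eq_one_iff] at h
        exact h1.not_isUnit (Ideal.isUnit_iff.2 h)
      omega
    have h4 : j = j' := Nat.pow_right_injective hN2 (h3.trans h3'.symm)
    rw [h2, h2', ← h, h4]
  have hsum : ∑ J ∈ S K m with IsPrimePow J, lam J =
      ∑ P ∈ ((S K m).filter IsPrimePow).image φ, Real.log (Ideal.absNorm P) := by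
    rw [Finset.sum_image hinj]
    exact Finset.sum_congr rfl fun J hJ => (hφ J hJ).2.2.1
  rw [hsum]
  have hprod : ∏ P ∈ ((S K m).filter IsPrimePow).image φ, P ∣
      Ideal.span {((p : ℕ) : 𝓞 K)} := by
    refine Finset.prod_primes_dvd _ ?_ ?_
    · intro P hP
      obtain ⟨J, hJ, rfl⟩ := Finset.mem_image.1 hP
      exact (hφ J hJ).1
    · intro P hP
      obtain ⟨J, hJ, rfl⟩ := Finset.mem_image.1 hP
      rw [Ideal.dvd_iff_le, Ideal.span_singleton_le_iff_mem]
      exact (hφ J hJ).2.1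
  have hN := map_dvd Ideal.absNorm hprod
  rw [Ideal.absNorm_span_natCast, RingOfIntegers.rank, map_prod] at hN
  have hle := Nat.le_of_dvd (pow_pos hpp.pos _) hN
  have hcast : (∏ P ∈ ((S K m).filter IsPrimePow).image φ, (Ideal.absNorm P : ℝ)) ≤
      (p : ℝ) ^ finrank ℚ K := by
    exact_mod_cast hle
  have hpos : ∀ P ∈ ((S K m).filter IsPrimePow).image φ, (Ideal.absNorm P : ℝ) ≠ 0 := by
    intro P hP
    obtain ⟨J, hJ, rfl⟩ := Finset.mem_image.1 hP
    exact Nat.cast_ne_zero.2 (absNorm_ne (hφ J hJ).1.ne_zero)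
  rw [← Real.log_prod hpos, ← Real.log_pow]
  refine Real.log_le_log ?_ hcast
  refine Finset.prod_pos fun P hP => ?_
  exact lt_of_le_of_ne (Nat.cast_nonneg _) (hpos P hP).symm

end VonM

theorem vonM : VonM := by
  intro K _ _
  exact ⟨VonM.L K, VonM.L_nonneg, VonM.L_le, VonM.conv⟩

end Pool.Agent.Helper21.NF
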